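import Pool.Agent.H12.Inst.EVC2
import Pool.Agent.H87.F5.Asm
import Pool.Agent.H84.SM.CH

set_option autoImplicit false

/-! MP_2e6055, module F5: `CENV` from `CEN` (helper10). -/

namespace Pool.Agent.H10.F5

open Pool.Agent.H7.UC Pool.Agent.H74.Tri Pool.Agent.H75.Perc Pool.Agent.H75.Lv Pool.Agent.H93.SM
open Metric Set

theorem sn_nonneg (U : Finset Fc) (col : Fc → Bool) (z : Fc) : 0 ≤ sn U col z := by
  unfold sn
  split_ifs
  · unfold snv
    split_ifs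
    · positivity
    · exact le_rfl
  · exact le_rfl

theorem norm_ctr_sub (f g : Fc) : ‖ctr f - ctr g‖ ≤ |(f.1 : ℝ) - g.1| + |(f.2 : ℝ) - g.2| := by
  set u : ℝ := (f.1 : ℝ) - g.1 with hu
  set v : ℝ := (f.2 : ℝ) - g.2 with hv
  have h2 : ‖ctr f - ctr g‖ ^ 2 = u ^ 2 + u * v + v ^ 2 := by
    rw [← normSq_lat]
    congr 2
    unfold ctr
    rw [hu, hv]
    push_cast
    ring
  refine abs_le_of_sq_le_sq' ?_ (by positivity) |>.2
  rw [h2]
  have h3 : u * v ≤ |u| * |v| := by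
    rw [← abs_mul]
    exact le_abs_self _
  nlinarith [sq_abs u, sq_abs v, mul_nonneg (abs_nonneg u) (abs_nonneg v)]

/-- distance from above -/
theorem dst_le {U : Finset Fc} {v g : Fc} {s : ℤ} (hg : g ∉ U) (h1 : |g.1 - v.1| ≤ s)
    (h2 : |g.2 - v.2| ≤ s) : dst U v ≤ 2 * s := by
  have h3 : ctr g ∉ reg U := fun h =>
    hg (Pool.Agent.H11.UC.mem_reg.1 h g (Pool.Agent.H11.UC.ocell_subset g
      (Pool.Agent.H11.UC.ctr_mem g)))
  have h4 : dst U v ≤ dist (ctr v) (ctr g) := infDist_le_dist_of_mem h3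
  rw [dist_comm, dist_eq_norm] at h4
  have h5 := norm_ctr_sub g v
  have h6 : |(g.1 : ℝ) - v.1| ≤ s := by exact_mod_cast h1
  have h7 : |(g.2 : ℝ) - v.2| ≤ s := by exact_mod_cast h2
  linarith

theorem cenv (hC : CEN) : Pool.Agent.H87.F5.CENV := by
  intro s0 hs0
  have hs1 : 0 < (s0 / 2) ^ 3 := by positivity
  obtain ⟨c, hc, K, hK⟩ := hC ((s0 / 2) ^ 3) hs1 24 (by norm_num)
  refine ⟨c, hc, max 20 (⌈2 * K⌉ + 1), ?_⟩
  intro R hR U col v p hS hp hpR hRU hg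
  have hR20 : 20 ≤ R := (le_max_left _ _).trans hR
  have hRK : 2 * K ≤ R := by
    have h1 : ⌈2 * K⌉ + 1 ≤ R := (le_max_right _ _).trans hR
    have h2 : (2 * K : ℝ) ≤ ⌈2 * K⌉ := Int.le_ceil _
    have h3 : ((⌈2 * K⌉ : ℤ) : ℝ) + 1 ≤ R := by exact_mod_cast h1
    linarith
  have hRr : (20 : ℝ) ≤ R := by exact_mod_cast hR20
  have hv : v ∈ U := hRU (mem_Bx.2 (by simp; omega))
  have hd1 : (R : ℝ) / 2 ≤ dst U v := Pool.Agent.H12.Inst.dst_ge_box (by omega) hRU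
  have hd2 : dst U v ≤ 2 * ((R + 1 : ℤ) : ℝ) := by
    have h1 := (adjF_iff _ _).1 (adj_hl p)
    have h2 := mem_Bx.1 hpR
    refine dst_le hp.2.1 ?_ ?_
    · rw [abs_le] at h2 ⊢
      omega
    · rw [abs_le, abs_le] at h2
      rw [abs_le]
      omega
  push_cast at hd2
  have hdp : 0 < dst U v := by linarith
  have hcr : dst U v ≤ crad U v := (Pool.Agent.H84.SM.ch U v hS.dom hv).2.2.2.2.1
  have hsn0 := sn_nonneg U col v
  -- the sine
  have hsn : (s0 / 2) ^ 3 ≤ sn U col v := by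
    unfold gv at hg
    have hcr0 : 0 < crad U v := by linarith
    set x := sn U col v ^ ((1 / 3) : ℝ) with hx
    have hx0 : 0 ≤ x := Real.rpow_nonneg hsn0 _
    have h1 : crad U v ^ (-(1 / 4) : ℝ) ≤ ((R : ℝ) / 2) ^ (-(1 / 4) : ℝ) :=
      Real.rpow_le_rpow_of_nonpos (by positivity) (by linarith) (by norm_num)
    have h2 : (R : ℝ) ^ ((1 / 4) : ℝ) * ((R : ℝ) / 2) ^ (-(1 / 4) : ℝ) = 2 ^ ((1 / 4) : ℝ) := by
      rw [Real.rpow_neg (by positivity), Real.div_rpow (by positivity) (by norm_num)]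
      have : (0 : ℝ) < (R : ℝ) ^ ((1 / 4) : ℝ) := by positivity
      field_simp
    have h3 : (2 : ℝ) ^ ((1 / 4) : ℝ) ≤ 2 := by
      calc (2 : ℝ) ^ ((1 / 4) : ℝ) ≤ 2 ^ (1 : ℝ) :=
            Real.rpow_le_rpow_of_exponent_le (by norm_num) (by norm_num)
        _ = 2 := Real.rpow_one _
    have h4 : s0 ≤ 2 * x := by
      calc s0 ≤ (R : ℝ) ^ ((1 / 4) : ℝ) * (crad U v ^ (-(1 / 4) : ℝ) * x) := hg
        _ = ((R : ℝ) ^ ((1 / 4) : ℝ) * crad U v ^ (-(1 / 4) : ℝ)) * x := by ring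
        _ ≤ ((R : ℝ) ^ ((1 / 4) : ℝ) * ((R : ℝ) / 2) ^ (-(1 / 4) : ℝ)) * x := by gcongr
        _ ≤ 2 * x := by rw [h2]; gcongr
    have h5 : x ^ 3 = sn U col v := by
      rw [hx, ← Real.rpow_natCast, ← Real.rpow_mul hsn0]
      norm_num
    rw [← h5]
    exact pow_le_pow_left₀ (by positivity) (by linarith) 3
  have h := hK (dst U v) (by linarith) U col v hS hv (by linarith) (by linarith) hsn
  have hR2 : ((R / 2 : ℤ) : ℝ) ≥ (R : ℝ) / 2 - 1 / 2 := by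
    have : R ≤ 2 * (R / 2) + 1 := by omega
    have : (R : ℝ) ≤ 2 * ((R / 2 : ℤ) : ℝ) + 1 := by exact_mod_cast this
    linarith
  have h2 := Pool.Agent.H12.Inst.vis_ge' U col v p hS hp (R / 2) (by omega)
    ((show Bx v (R / 2) ⊆ Bx v R from fun f hf => by
      rw [Pool.Agent.H75.Lv.mem_Bx] at hf ⊢
      omega).trans hRU) (dst U v / 24) (by linarith)
  exact h.trans h2

end Pool.Agent.H10.F5
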