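import Pool.Agent.H75.Lv.Lev
import Pool.Agent.H74.Tri.Geo

set_option autoImplicit false

/-! MP_2e6055, F5: POCK8 (the pocket from a run next to a black face, surrounded by the annulus). -/

namespace Pool.Agent.H10.F5

open Pool.Agent.H7.UC Pool.Agent.H74.Tri Pool.Agent.H75.Lv
open Pool.Agent.H89.Per (ANN annS)

/-- after peeling the black pieces of a blocking set the component of `z0` avoids the run `m` -/
theorem gate8 {D : Finset Fc} {Ω : Fc → Bool} (hD : St D Ω) {q : Pos} (hq : IsTip D Ω q)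
    {z0 c : Fc} {w : ℕ} {m : Set Fc} (hmD : ∀ f ∈ m, f ∈ D)
    (hm : ∀ f ∈ m, ∀ g ∈ m, Jn m f g)
    (hin : ∀ f ∈ m, |f.1 - c.1| < (w : ℤ) ∧ |f.2 - c.2| < (w : ℤ))
    {g x : Fc} (hg : g ∈ m) (hx : x ∉ D) (hgx : adjF g x) (hxb : Ω x = true)
    (hout : 3 * (w : ℤ) < |(ph q).1 - c.1| ∨ 3 * (w : ℤ) < |(ph q).2 - c.2|)
    (hz : z0 ∈ D) (hzo : 3 * (w : ℤ) < |z0.1 - c.1| ∨ 3 * (w : ℤ) < |z0.2 - c.2|)
    (hj : Jn {a | a ∈ D ∧ a ∉ annS c w} z0 (ph q)) {C : Set Fc} (hC : C ⊆ annS c w)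
    (hb : Bls c w C) : z0 ∈ comp (D \ KC D Ω C) z0 ∧
      ∀ f ∈ comp (D \ KC D Ω C) z0, f ∈ D ∧ f ∉ m ∧ Jn {a | a ∈ D ∧ a ∉ m} z0 f := by
  classical
  have hanC : ∀ a : Fc, a ∈ annS c w → (w : ℤ) ≤ |a.1 - c.1| ∨ (w : ℤ) ≤ |a.2 - c.2| := by
    intro a ha
    unfold annS at ha
    rw [Set.mem_ofPred_eq] at ha
    rcases ha.2 with (h | h) | (h | h)
    · left; linarith [neg_abs_le (a.1 - c.1)]
    · left; linarith [le_abs_self (a.1 - c.1)]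
    · right; linarith [neg_abs_le (a.2 - c.2)]
    · right; linarith [le_abs_self (a.2 - c.2)]
  have hanO : ∀ a : Fc, a ∈ annS c w → |a.1 - c.1| ≤ 3 * (w : ℤ) ∧ |a.2 - c.2| ≤ 3 * (w : ℤ) := by
    intro a ha
    unfold annS at ha
    rw [Set.mem_ofPred_eq] at ha
    rw [abs_le, abs_le]
    refine ⟨⟨by linarith [ha.1.1.1], by linarith [ha.1.1.2]⟩, by linarith [ha.1.2.1],
      by linarith [ha.1.2.2]⟩
  -- the colouring with `C` black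
  set Ω' : Fc → Bool := fun f => if f ∈ D then decide (f ∈ C) else Ω f with hΩ'
  have hoff : ∀ f, f ∉ D → Ω f = Ω' f := by
    intro f hf
    rw [hΩ']
    simp only
    rw [if_neg hf]
  have hD' : St D Ω' := St_congr hoff hD
  have hq' : IsTip D Ω' q := by
    refine ⟨hq.1, hq.2.1, hq.2.2.1, ?_, ?_⟩
    · rw [← hoff _ hq.2.1]; exact hq.2.2.2.1
    · rw [← hoff _ hq.2.2.1]; exact hq.2.2.2.2
  have hK : KC D Ω C = KC D Ω' C := KC_congr (fun f hf _ => hoff f hf) (fun _ _ => Iff.rfl)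
  have hout' : ∀ a : Fc, (3 * (w : ℤ) < |a.1 - c.1| ∨ 3 * (w : ℤ) < |a.2 - c.2|) → a ∉ C := by
    intro a ha h
    have h1 := hanO _ (hC h)
    rcases ha with h2 | h2
    · linarith [h1.1]
    · linarith [h1.2]
  have hqc : ph q ∉ C := hout' _ hout
  have hzc : z0 ∉ C := hout' _ hzo
  have hmc : ∀ f ∈ m, f ∉ C := by
    intro f hf h
    have h1 := hin f hf
    rcases hanC _ (hC h) with h2 | h2
    · linarith [h1.1]
    · linarith [h1.2]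
  have hsep : ¬ Jn {a | a ∉ C} (ph q) g := by
    intro h
    exact hb g (ph q) (hin g hg) hout (h.symm hqc)
  have hgate := gate hD' hq' (fun a ha hac => by
    rw [hΩ']
    simp only
    rw [if_pos ha]
    simpa using hac) hmD hm hmc hg hx hgx (by rw [← hoff x hx]; exact hxb) hqc hsep
  rw [← hK] at hgate
  -- the two components are the same
  have hKC : ∀ a, a ∈ KC D Ω C → a ∈ C := fun a ha => (mem_KC.1 ha).2.1
  have hzD : z0 ∈ D \ KC D Ω C := Finset.mem_sdiff.2 ⟨hz, fun h => hzc (hKC _ h)⟩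
  have hqm : ph q ∈ comp (D \ KC D Ω C) z0 := by
    refine mem_comp.2 ⟨Finset.mem_sdiff.2 ⟨hq.1, fun h => hqc (hKC _ h)⟩, hj.mono ?_⟩
    rintro a ⟨ha1, ha2⟩
    exact_mod_cast Finset.mem_sdiff.2 ⟨ha1, fun h => ha2 (hC (hKC _ h))⟩
  have hcomp : comp (D \ KC D Ω C) (ph q) = comp (D \ KC D Ω C) z0 := comp_eq_of_mem hzD hqm
  rw [hcomp] at hgate
  have hZ : ∀ a ∈ comp (D \ KC D Ω C) z0, a ∈ D ∧ a ∉ m := fun a ha =>
    ⟨(Finset.mem_sdiff.1 (comp_sub _ _ ha)).1, fun h => hgate a h ha⟩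
  refine ⟨mem_comp_self hzD, fun f hf => ⟨(hZ f hf).1, (hZ f hf).2, ?_⟩⟩
  refine (comp_jn hf).mono ?_
  intro a ha
  exact hZ a (by exact_mod_cast ha)

/-- **POCK8** -/
theorem pock8 {D : Finset Fc} {Ω : Fc → Bool} (hD : St D Ω) {q : Pos} (hq : IsTip D Ω q)
    {z0 c : Fc} {w : ℕ} {R : ℤ} {m : Set Fc} (hmD : ∀ f ∈ m, f ∈ D)
    (hm : ∀ f ∈ m, ∀ g ∈ m, Jn m f g)
    (hin : ∀ f ∈ m, |f.1 - c.1| < (w : ℤ) ∧ |f.2 - c.2| < (w : ℤ))
    {g x : Fc} (hg : g ∈ m) (hx : x ∉ D) (hgx : adjF g x) (hxb : Ω x = true)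
    (hout : 3 * (w : ℤ) < |(ph q).1 - c.1| ∨ 3 * (w : ℤ) < |(ph q).2 - c.2|)
    (hz : z0 ∈ D) (hzo : 3 * (w : ℤ) < |z0.1 - c.1| ∨ 3 * (w : ℤ) < |z0.2 - c.2|)
    (hj : Jn {a | a ∈ D ∧ a ∉ annS c w} z0 (ph q))
    (hR : ∀ f, Jn {a | a ∈ D ∧ a ∉ m} z0 f → f ∈ Bx z0 R) : Pock D Ω z0 c w R := by
  intro C hC hb f hf
  exact hR f ((gate8 hD hq hmD hm hin hg hx hgx hxb hout hz hzo hj hC hb).2 f hf).2.2

end Pool.Agent.H10.F5
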